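import Mathlib

set_option autoImplicit false

namespace Pool.Agent.W_MP_de5a3f_an

open scoped ZeroAtInfty

/-- A family `F` of finite subsets of `Ω` with `⋃ F = Ω`. -/
structure Cover (Ω : Type) where
  /-- the members of the family -/
  sets : Set (Finset Ω)
  /-- the family covers `Ω` -/
  covers : ∀ k : Ω, ∃ A ∈ sets, k ∈ A

/-- The restriction `F ↾ H = {A ∩ H : A ∈ F}`, a cover of `H` by finite sets. -/
def Cover.restrict {Ω : Type} (F : Cover Ω) (H : Set Ω) : Cover H where
  sets := {B | ∃ A ∈ F.sets, ∀ k : H, k ∈ B ↔ (k : Ω) ∈ A}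
  covers := by
    classical
    intro k
    obtain ⟨A, hA, hk⟩ := F.covers k
    refine ⟨A.subtype (fun x => x ∈ H), ⟨A, hA, fun j => ?_⟩, ?_⟩
    · simp
    · simpa using hk

/-- The space `c₀₀(Ω)` of finitely supported real vectors on `Ω`, tagged with the family `F`
whose norm it is going to carry. -/
def C00 {Ω : Type} (_F : Cover Ω) : Type := Ω →₀ ℝ

noncomputable instance {Ω : Type} (F : Cover Ω) : AddCommGroup (C00 F) :=
  Finsupp.instAddCommGroup

noncomputable instance {Ω : Type} (F : Cover Ω) : Module ℝ (C00 F) :=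
  Finsupp.module Ω ℝ

/-- The coordinate `x(k)` of a vector `x` of `c₀₀(Ω)`. -/
def C00.coord {Ω : Type} {F : Cover Ω} (x : C00 F) (k : Ω) : ℝ := (show Ω →₀ ℝ from x) k

/-- `‖x‖_F = sup {∑_{k ∈ A} |x(k)| : A ∈ F}`. -/
noncomputable instance {Ω : Type} (F : Cover Ω) : Norm (C00 F) where
  norm x := sSup {r : ℝ | ∃ A ∈ F.sets, r = ∑ k ∈ A, |x.coord k|}

section basic

variable {Ω : Type} {F : Cover Ω}

theorem norm_def (x : C00 F) :
    ‖x‖ = sSup {r : ℝ | ∃ A ∈ F.sets, r = ∑ k ∈ A, |x.coord k|} := rfl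

@[simp] theorem coord_zero (k : Ω) : (0 : C00 F).coord k = 0 := rfl

@[simp] theorem coord_add (x y : C00 F) (k : Ω) : (x + y).coord k = x.coord k + y.coord k := rfl

@[simp] theorem coord_sub (x y : C00 F) (k : Ω) : (x - y).coord k = x.coord k - y.coord k := rfl

@[simp] theorem coord_smul (c : ℝ) (x : C00 F) (k : Ω) : (c • x).coord k = c * x.coord k := rfl

theorem coord_ext {x y : C00 F} (h : ∀ k, x.coord k = y.coord k) : x = y :=
  Finsupp.ext h

/-- coordinates as a linear map -/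
noncomputable def coordL (F : Cover Ω) (k : Ω) : C00 F →ₗ[ℝ] ℝ where
  toFun x := x.coord k
  map_add' _ _ := rfl
  map_smul' _ _ := rfl

theorem coord_sum {ι : Type*} (s : Finset ι) (f : ι → C00 F) (k : Ω) :
    (∑ i ∈ s, f i).coord k = ∑ i ∈ s, (f i).coord k := by
  have := map_sum (coordL F k) f s
  exact this

/-- the support of a vector -/
noncomputable def supp (x : C00 F) : Finset Ω := (show Ω →₀ ℝ from x).support

theorem mem_supp (x : C00 F) (k : Ω) : k ∈ supp x ↔ x.coord k ≠ 0 := Finsupp.mem_support_iff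

theorem sum_le_supp (x : C00 F) (A : Finset Ω) :
    ∑ k ∈ A, |x.coord k| ≤ ∑ k ∈ supp x, |x.coord k| := by
  classical
  have h1 : ∑ k ∈ A, |x.coord k| = ∑ k ∈ A ∩ supp x, |x.coord k| := by
    symm
    apply Finset.sum_subset Finset.inter_subset_left
    intro k hk hk'
    have : k ∉ supp x := fun h => hk' (Finset.mem_inter.2 ⟨hk, h⟩)
    rw [mem_supp] at this
    push Not at this
    simp [this]
  rw [h1]
  exact Finset.sum_le_sum_of_subset_of_nonneg Finset.inter_subset_right
    (fun _ _ _ => abs_nonneg _)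

theorem bdd (x : C00 F) : BddAbove {r : ℝ | ∃ A ∈ F.sets, r = ∑ k ∈ A, |x.coord k|} := by
  refine ⟨∑ k ∈ supp x, |x.coord k|, ?_⟩
  rintro r ⟨A, _, rfl⟩
  exact sum_le_supp x A

theorem sum_le_norm (x : C00 F) {A : Finset Ω} (hA : A ∈ F.sets) :
    ∑ k ∈ A, |x.coord k| ≤ ‖x‖ :=
  le_csSup (bdd x) ⟨A, hA, rfl⟩

theorem norm_le (x : C00 F) {M : ℝ} (hM : 0 ≤ M)
    (h : ∀ A ∈ F.sets, ∑ k ∈ A, |x.coord k| ≤ M) : ‖x‖ ≤ M := by
  rw [norm_def]
  apply Real.sSup_le _ hM
  rintro r ⟨A, hA, rfl⟩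
  exact h A hA

theorem norm_nonneg' (x : C00 F) : 0 ≤ ‖x‖ := by
  rw [norm_def]
  apply Real.sSup_nonneg
  rintro r ⟨A, _, rfl⟩
  exact Finset.sum_nonneg (fun _ _ => abs_nonneg _)

theorem norm_le_supp (x : C00 F) : ‖x‖ ≤ ∑ k ∈ supp x, |x.coord k| :=
  norm_le x (Finset.sum_nonneg (fun _ _ => abs_nonneg _)) (fun A _ => sum_le_supp x A)

theorem abs_coord_le_norm (x : C00 F) (k : Ω) : |x.coord k| ≤ ‖x‖ := by
  obtain ⟨A, hA, hk⟩ := F.covers k
  refine le_trans ?_ (sum_le_norm x hA)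
  exact Finset.single_le_sum (f := fun k => |x.coord k|) (fun _ _ => abs_nonneg _) hk

theorem norm_mono {x y : C00 F} (h : ∀ k, |x.coord k| ≤ |y.coord k|) : ‖x‖ ≤ ‖y‖ :=
  norm_le x (norm_nonneg' y) (fun _ hA =>
    (Finset.sum_le_sum (fun k _ => h k)).trans (sum_le_norm y hA))

theorem normCore (F : Cover Ω) : NormedSpace.Core ℝ (C00 F) where
  norm_nonneg := norm_nonneg'
  norm_smul := by
    have key : ∀ (c : ℝ) (x : C00 F), ‖c • x‖ ≤ ‖c‖ * ‖x‖ := by
      intro c x
      refine norm_le _ (mul_nonneg (norm_nonneg c) (norm_nonneg' x)) ?_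
      intro A hA
      have : ∑ k ∈ A, |(c • x).coord k| = ‖c‖ * ∑ k ∈ A, |x.coord k| := by
        rw [Finset.mul_sum]
        refine Finset.sum_congr rfl (fun k _ => ?_)
        rw [coord_smul, abs_mul, Real.norm_eq_abs]
      rw [this]
      exact mul_le_mul_of_nonneg_left (sum_le_norm x hA) (norm_nonneg c)
    intro c x
    apply le_antisymm (key c x)
    by_cases hc : c = 0
    · subst hc
      simp only [norm_zero, zero_mul]
      exact norm_nonneg' _
    · have h2 := key c⁻¹ (c • x)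
      rw [smul_smul, inv_mul_cancel₀ hc, one_smul, norm_inv] at h2
      have hc' : 0 < ‖c‖ := norm_pos_iff.2 hc
      calc ‖c‖ * ‖x‖ ≤ ‖c‖ * (‖c‖⁻¹ * ‖c • x‖) := mul_le_mul_of_nonneg_left h2 hc'.le
        _ = ‖c • x‖ := by field_simp
  norm_triangle := by
    intro x y
    refine norm_le _ (add_nonneg (norm_nonneg' x) (norm_nonneg' y)) ?_
    intro A hA
    calc ∑ k ∈ A, |(x + y).coord k| ≤ ∑ k ∈ A, (|x.coord k| + |y.coord k|) :=
          Finset.sum_le_sum (fun k _ => by rw [coord_add]; exact abs_add_le _ _)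
      _ = ∑ k ∈ A, |x.coord k| + ∑ k ∈ A, |y.coord k| := Finset.sum_add_distrib
      _ ≤ ‖x‖ + ‖y‖ := add_le_add (sum_le_norm x hA) (sum_le_norm y hA)
  norm_eq_zero_iff := by
    intro x
    constructor
    · intro h
      apply coord_ext
      intro k
      have := abs_coord_le_norm x k
      rw [h] at this
      simpa using this
    · rintro rfl
      apply le_antisymm _ (norm_nonneg' _)
      refine norm_le _ le_rfl ?_
      intro A _
      simp

end basic

noncomputable instance {Ω : Type} (F : Cover Ω) : NormedAddCommGroup (C00 F) :=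
  NormedAddCommGroup.ofCore (normCore F)

noncomputable instance {Ω : Type} (F : Cover Ω) : NormedSpace ℝ (C00 F) :=
  NormedSpace.ofCore (normCore F)

/-- The Banach space `X_F`: the completion of `c₀₀(Ω)` under the norm `‖·‖_F`. -/
abbrev X {Ω : Type} (F : Cover Ω) : Type := UniformSpace.Completion (C00 F)

/-- `E` contains a subspace isomorphic to `c₀`. -/
def ContainsC0 (E : Type) [NormedAddCommGroup E] [NormedSpace ℝ E] : Prop :=
  ∃ Y : Submodule ℝ E, Nonempty (C₀(ℕ, ℝ) ≃L[ℝ] Y)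

/-- The collection `H(F, ¬c₀)` of the sets `H ⊆ Ω` for which `X_{F ↾ H}` contains no subspace
isomorphic to `c₀`. -/
def noC0 {Ω : Type} (F : Cover Ω) : Set (Set Ω) :=
  {H | ¬ ContainsC0 (X (F.restrict H))}

/-- The collection of the sets `H ⊆ 2^{<ℕ}` that are unions of finitely many antichains.
Nodes are finite binary sequences, ordered by extension: `s ≤ t` iff `s` is an initial segment
of `t`. -/
def antichainIdeal : Set (Set (List Bool)) :=
  {H | ∃ (n : ℕ) (A : Fin n → Set (List Bool)),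
    (∀ i, IsAntichain (fun s t : List Bool => s <+: t) (A i)) ∧ H = ⋃ i, A i}

end Pool.Agent.W_MP_de5a3f_an
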