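import Pool.Agent.W_MP_de5a3f_an.Defs

set_option autoImplicit false

namespace Pool.Agent.W_MP_de5a3f_an

open scoped ZeroAtInfty

/-! ### Spaces with an `ℓ₁` lower estimate contain no copy of `c₀` -/

/-- the `ℓ₁` norm -/
noncomputable def l1 {Ω : Type} {F : Cover Ω} (x : C00 F) : ℝ := ∑ k ∈ supp x, |x.coord k|

theorem l1_eq {Ω : Type} {F : Cover Ω} (x : C00 F) {B : Finset Ω} (hB : supp x ⊆ B) :
    l1 x = ∑ k ∈ B, |x.coord k| := by
  unfold l1
  apply Finset.sum_subset hB
  intro k _ hk
  rw [mem_supp] at hk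
  push Not at hk
  simp [hk]

theorem norm_le_l1 {Ω : Type} {F : Cover Ω} (x : C00 F) : ‖x‖ ≤ l1 x := norm_le_supp x

theorem coord_le_l1 {Ω : Type} {F : Cover Ω} (x : C00 F) (k : Ω) : |x.coord k| ≤ l1 x := by
  classical
  rw [l1_eq x (Finset.subset_insert k (supp x))]
  exact Finset.single_le_sum (f := fun k => |x.coord k|) (fun _ _ => abs_nonneg _)
    (Finset.mem_insert_self _ _)

theorem coe_smul_sum {Ω : Type} {F : Cover Ω} (t : Finset ℕ) (b : ℕ → ℝ) (x : ℕ → C00 F) :
    ((∑ n ∈ t, b n • x n : C00 F) : X F) = ∑ n ∈ t, b n • (x n : X F) := by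
  classical
  induction t using Finset.induction_on with
  | empty => simp
  | insert a s ha ih =>
    rw [Finset.sum_insert ha, Finset.sum_insert ha, UniformSpace.Completion.coe_add, ih,
      UniformSpace.Completion.coe_smul]

/-- the unit vectors of `c₀` -/
noncomputable def unitVec (n : ℕ) : C₀(ℕ, ℝ) where
  toFun := Pi.single n 1
  continuous_toFun := continuous_of_discreteTopology
  zero_at_infty' := by
    have h : ∀ᶠ m in Filter.cocompact ℕ, (Pi.single n 1 : ℕ → ℝ) m = 0 := by
      rw [Filter.cocompact_eq_cofinite, Filter.eventually_cofinite]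
      refine (Set.finite_singleton n).subset ?_
      intro m hm
      by_contra hne
      exact hm (by simp [Set.mem_singleton_iff.not.1 hne])
    exact tendsto_const_nhds.congr' (h.mono fun m hm => hm.symm)

theorem unitVec_apply (n m : ℕ) : unitVec n m = if m = n then 1 else 0 := by
  change (Pi.single n 1 : ℕ → ℝ) m = _
  rw [Pi.single_apply]

theorem c0_norm_le (a : C₀(ℕ, ℝ)) {M : ℝ} (hM : 0 ≤ M) (h : ∀ n, |a n| ≤ M) : ‖a‖ ≤ M := by
  rw [← ZeroAtInftyContinuousMap.norm_toBCF_eq_norm, BoundedContinuousFunction.norm_le hM]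
  intro n
  exact h n

theorem c0_apply_le (a : C₀(ℕ, ℝ)) (n : ℕ) : |a n| ≤ ‖a‖ := by
  rw [← ZeroAtInftyContinuousMap.norm_toBCF_eq_norm]
  exact a.toBCF.norm_coe_le_norm n

theorem c0_sum_apply {ι : Type*} (s : Finset ι) (f : ι → C₀(ℕ, ℝ)) (k : ℕ) :
    (∑ i ∈ s, f i) k = ∑ i ∈ s, f i k := by
  classical
  induction s using Finset.induction_on with
  | empty => simp
  | insert a s ha ih => rw [Finset.sum_insert ha, Finset.sum_insert ha]; simp [ih]

theorem norm_signed_sum (S : Finset ℕ) (ε : ℕ → ℝ) (hε : ∀ n, |ε n| ≤ 1) :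
    ‖∑ n ∈ S, ε n • unitVec n‖ ≤ 1 := by
  apply c0_norm_le _ zero_le_one
  intro k
  rw [c0_sum_apply]
  have : ∑ n ∈ S, (ε n • unitVec n) k = if k ∈ S then ε k else 0 := by
    simp [unitVec_apply]
  rw [this]
  split_ifs
  · exact hε k
  · simp

theorem not_containsC0 {Ω : Type} (F : Cover Ω) (c : ℝ) (hc : 0 < c)
    (h : ∀ x : C00 F, c * l1 x ≤ ‖x‖) : ¬ ContainsC0 (X F) := by
  classical
  rintro ⟨Y, ⟨e⟩⟩
  let T : C₀(ℕ, ℝ) →L[ℝ] X F := Y.subtypeL.comp (e : C₀(ℕ, ℝ) →L[ℝ] Y)
  set M := ‖T‖ with hM
  have hM0 : 0 ≤ M := norm_nonneg T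
  set K := ‖(e.symm : Y →L[ℝ] C₀(ℕ, ℝ))‖ with hK
  have hlow : ∀ a : C₀(ℕ, ℝ), ‖a‖ ≤ K * ‖T a‖ := by
    intro a
    have := (e.symm : Y →L[ℝ] C₀(ℕ, ℝ)).le_opNorm (e a)
    simpa [T] using this
  have hu : ∀ n, 1 ≤ ‖unitVec n‖ := by
    intro n
    have := c0_apply_le (unitVec n) n
    simpa [unitVec_apply] using this
  have hTu : ∀ n, 1 ≤ K * ‖T (unitVec n)‖ := fun n => (hu n).trans (hlow _)
  have hKpos : 0 < K := by
    rcases (norm_nonneg (e.symm : Y →L[ℝ] C₀(ℕ, ℝ))).lt_or_eq with h0 | h0
    · exact h0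
    · exfalso
      have := hTu 0
      rw [hK, ← h0] at this
      norm_num at this
  set δ : ℝ := 1 / (2 * K) with hδ
  have hδpos : 0 < δ := by positivity
  -- approximants
  have hy : ∀ n : ℕ, ∃ y : C00 F, ‖T (unitVec n) - (y : X F)‖ < δ * (1 / 2) ^ n := by
    intro n
    have hpos : 0 < δ * (1 / 2) ^ n := by positivity
    obtain ⟨y, hy⟩ := (UniformSpace.Completion.denseRange_coe (α := C00 F)).exists_dist_lt
      (T (unitVec n)) hpos
    exact ⟨y, by rwa [dist_eq_norm] at hy⟩
  choose y hy using hy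
  have hynorm : ∀ n, δ ≤ l1 (y n) := by
    intro n
    refine le_trans ?_ (norm_le_l1 (y n))
    rw [← UniformSpace.Completion.norm_coe (y n)]
    have h1 : ‖T (unitVec n)‖ ≤ ‖T (unitVec n) - (y n : X F)‖ + ‖(y n : X F)‖ := by
      simpa using norm_add_le (T (unitVec n) - (y n : X F)) (y n : X F)
    have h2 : 2 * δ ≤ ‖T (unitVec n)‖ := by
      rw [hδ]
      have := hTu n
      rw [div_eq_mul_inv, mul_inv]
      field_simp
      linarith
    have h3 : δ * (1 / 2) ^ n ≤ δ := by
      have : ((1 : ℝ) / 2) ^ n ≤ 1 := pow_le_one₀ (by norm_num) (by norm_num)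
      nlinarith
    linarith [hy n]
  -- the bound on the signed sums
  have hbound : ∀ (S : Finset ℕ) (ε : ℕ → ℝ), (∀ n, |ε n| ≤ 1) →
      l1 (∑ n ∈ S, ε n • y n) ≤ (M + 2 * δ) / c := by
    intro S ε hε
    rw [le_div_iff₀ hc, mul_comm]
    refine (h _).trans ?_
    rw [← UniformSpace.Completion.norm_coe]
    rw [coe_smul_sum]
    have h1 : ∑ n ∈ S, ε n • (y n : X F)
        = T (∑ n ∈ S, ε n • unitVec n) - ∑ n ∈ S, ε n • (T (unitVec n) - (y n : X F)) := by
      rw [map_sum, ← Finset.sum_sub_distrib]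
      refine Finset.sum_congr rfl (fun n _ => ?_)
      rw [map_smul, smul_sub]
      abel
    rw [h1]
    refine (norm_sub_le _ _).trans ?_
    apply add_le_add
    · calc ‖T (∑ n ∈ S, ε n • unitVec n)‖ ≤ M * ‖∑ n ∈ S, ε n • unitVec n‖ := T.le_opNorm _
        _ ≤ M * 1 := mul_le_mul_of_nonneg_left (norm_signed_sum S ε hε) hM0
        _ = M := mul_one _
    · calc ‖∑ n ∈ S, ε n • (T (unitVec n) - (y n : X F))‖
          ≤ ∑ n ∈ S, ‖ε n • (T (unitVec n) - (y n : X F))‖ := norm_sum_le _ _
        _ ≤ ∑ n ∈ S, δ * (1 / 2) ^ n := by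
            refine Finset.sum_le_sum (fun n _ => ?_)
            rw [norm_smul, Real.norm_eq_abs]
            calc |ε n| * ‖T (unitVec n) - (y n : X F)‖
                ≤ 1 * ‖T (unitVec n) - (y n : X F)‖ :=
                  mul_le_mul_of_nonneg_right (hε n) (norm_nonneg _)
              _ ≤ δ * (1 / 2) ^ n := by rw [one_mul]; exact (hy n).le
        _ = δ * ∑ n ∈ S, ((1 : ℝ) / 2) ^ n := by rw [Finset.mul_sum]
        _ ≤ δ * 2 := by
            apply mul_le_mul_of_nonneg_left _ hδpos.le
            have := (summable_geometric_two).sum_le_tsum S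
              (fun n _ => by positivity)
            rwa [tsum_geometric_two] at this
        _ = 2 * δ := mul_comm _ _
  -- the supremum of the signed sums
  let P : Set ℝ := {r | ∃ (S : Finset ℕ) (ε : ℕ → ℝ), (∀ n, |ε n| ≤ 1) ∧
    r = l1 (∑ n ∈ S, ε n • y n)}
  have hPbdd : BddAbove P := by
    refine ⟨(M + 2 * δ) / c, ?_⟩
    rintro r ⟨S, ε, hε, rfl⟩
    exact hbound S ε hε
  have hPne : P.Nonempty := ⟨_, ∅, fun _ => 0, by simp, rfl⟩
  obtain ⟨r, ⟨S, ε, hε, rfl⟩, hr⟩ := exists_lt_of_lt_csSup hPne
    (show sSup P - δ / 4 < sSup P by linarith)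
  set z := ∑ n ∈ S, ε n • y n with hz
  -- coordinates tend to zero
  have hcoord : ∀ k : Ω, Filter.Tendsto (fun n => |(y n).coord k|) Filter.atTop (nhds 0) := by
    intro k
    apply Summable.tendsto_atTop_zero
    apply summable_of_sum_le (c := (M + 2 * δ) / c) (fun _ => abs_nonneg _)
    intro u
    let σ : ℕ → ℝ := fun n => if 0 ≤ (y n).coord k then 1 else -1
    have hσ : ∀ n, |σ n| ≤ 1 := by
      intro n
      simp only [σ]
      split_ifs <;> simp
    refine le_trans ?_ (hbound u σ hσ)
    refine le_trans ?_ (coord_le_l1 _ k)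
    rw [coord_sum]
    refine le_trans (le_of_eq ?_) (le_abs_self _)
    refine Finset.sum_congr rfl (fun n _ => ?_)
    rw [coord_smul]
    simp only [σ]
    split_ifs with h0
    · rw [abs_of_nonneg h0, one_mul]
    · rw [abs_of_neg (not_le.1 h0)]; ring
  have hsum : Filter.Tendsto (fun n => ∑ k ∈ supp z, |(y n).coord k|) Filter.atTop (nhds 0) := by
    have := tendsto_finsetSum (supp z) (fun k _ => hcoord k)
    simpa using this
  have hev1 : ∀ᶠ n in Filter.atTop, ∑ k ∈ supp z, |(y n).coord k| < δ / 4 :=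
    hsum.eventually_lt_const (by linarith)
  have hev2 : ∀ᶠ n in Filter.atTop, n ∉ S := by
    rw [← Nat.cofinite_eq_atTop, Filter.eventually_cofinite]
    simp
  obtain ⟨m, hm1, hm2⟩ := (hev1.and hev2).exists
  -- contradiction
  have hmem : l1 (z + y m) ∈ P := by
    refine ⟨insert m S, fun n => if n = m then 1 else ε n, ?_, ?_⟩
    · intro n
      dsimp only
      split_ifs
      · simp
      · exact hε n
    · rw [Finset.sum_insert hm2]
      have : ∑ n ∈ S, (if n = m then (1 : ℝ) else ε n) • y n = z := by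
        rw [hz]
        refine Finset.sum_congr rfl (fun n hn => ?_)
        have : n ≠ m := fun h' => hm2 (h' ▸ hn)
        rw [if_neg this]
      rw [this]
      simp [add_comm]
  have hle : l1 (z + y m) ≤ sSup P := le_csSup hPbdd hmem
  set B := supp z ∪ supp (y m) ∪ supp (z + y m) with hB
  have e1 : l1 z = ∑ k ∈ B, |z.coord k| :=
    l1_eq z (fun k hk => by simp [hB, hk])
  have e2 : l1 (y m) = ∑ k ∈ B, |(y m).coord k| :=
    l1_eq (y m) (fun k hk => by simp [hB, hk])
  have e3 : l1 (z + y m) = ∑ k ∈ B, |(z + y m).coord k| :=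
    l1_eq (z + y m) (fun k hk => by simp [hB, hk])
  have e4 : ∑ k ∈ supp z, |(y m).coord k|
      = ∑ k ∈ B, (if k ∈ supp z then |(y m).coord k| else 0) := by
    rw [← Finset.sum_filter]
    refine Finset.sum_congr ?_ (fun _ _ => rfl)
    ext k
    simp only [hB, Finset.mem_filter, Finset.mem_union]
    tauto
  have key : l1 z + l1 (y m) - 2 * ∑ k ∈ supp z, |(y m).coord k| ≤ l1 (z + y m) := by
    rw [e1, e2, e3, e4, Finset.mul_sum, ← Finset.sum_add_distrib, ← Finset.sum_sub_distrib]
    refine Finset.sum_le_sum (fun k _ => ?_)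
    rw [coord_add]
    split_ifs with hk
    · have := abs_sub_abs_le_abs_sub (z.coord k) (-(y m).coord k)
      rw [abs_neg, sub_neg_eq_add] at this
      linarith
    · rw [mem_supp] at hk
      push Not at hk
      rw [hk]
      simp
  have := hynorm m
  linarith

/-! ### Blocks spanning a copy of `c₀` -/

theorem containsC0 {Ω : Type} (F : Cover Ω) (x : ℕ → C00 F) (M : ℝ)
    (hpos : ∀ n k, 0 ≤ (x n).coord k)
    (hdisj : ∀ n m k, n ≠ m → (x n).coord k = 0 ∨ (x m).coord k = 0)
    (hone : ∀ n, 1 ≤ ‖x n‖)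
    (hM : ∀ t : Finset ℕ, ‖∑ n ∈ t, x n‖ ≤ M) : ContainsC0 (X F) := by
  classical
  have hM0 : 0 ≤ M := by simpa using hM ∅
  have hup : ∀ (t : Finset ℕ) (b : ℕ → ℝ) (ρ : ℝ), 0 ≤ ρ → (∀ n ∈ t, |b n| ≤ ρ) →
      ‖∑ n ∈ t, b n • x n‖ ≤ ρ * M := by
    intro t b ρ hρ hb
    have h1 : ‖∑ n ∈ t, b n • x n‖ ≤ ‖ρ • ∑ n ∈ t, x n‖ := by
      apply norm_mono
      intro k
      rw [coord_sum, coord_smul, coord_sum, abs_mul, abs_of_nonneg hρ]
      calc |∑ n ∈ t, (b n • x n).coord k| ≤ ∑ n ∈ t, |(b n • x n).coord k| :=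
            Finset.abs_sum_le_sum_abs _ _
        _ ≤ ∑ n ∈ t, ρ * (x n).coord k := by
            refine Finset.sum_le_sum (fun n hn => ?_)
            rw [coord_smul, abs_mul, abs_of_nonneg (hpos n k)]
            exact mul_le_mul_of_nonneg_right (hb n hn) (hpos n k)
        _ = ρ * ∑ n ∈ t, (x n).coord k := by rw [Finset.mul_sum]
        _ ≤ ρ * |∑ n ∈ t, (x n).coord k| :=
            mul_le_mul_of_nonneg_left (le_abs_self _) hρ
    refine h1.trans ?_
    rw [norm_smul, Real.norm_eq_abs, abs_of_nonneg hρ]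
    exact mul_le_mul_of_nonneg_left (hM t) hρ
  have hlow : ∀ (t : Finset ℕ) (b : ℕ → ℝ), ∀ n ∈ t, |b n| ≤ ‖∑ m ∈ t, b m • x m‖ := by
    intro t b n hn
    have h1 : ‖b n • x n‖ ≤ ‖∑ m ∈ t, b m • x m‖ := by
      apply norm_mono
      intro k
      rw [coord_sum]
      by_cases hk : (x n).coord k = 0
      · rw [coord_smul, hk]
        simp
      · rw [Finset.sum_eq_single n]
        · intro m _ hmn
          rcases hdisj m n k hmn with h0 | h0
          · rw [coord_smul, h0, mul_zero]
          · exact absurd h0 hk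
        · intro h'; exact absurd hn h'
    refine le_trans ?_ h1
    rw [norm_smul, Real.norm_eq_abs]
    calc |b n| = |b n| * 1 := (mul_one _).symm
      _ ≤ |b n| * ‖x n‖ := mul_le_mul_of_nonneg_left (hone n) (abs_nonneg _)
  have hcoe : ∀ (t : Finset ℕ) (b : ℕ → ℝ),
      ‖∑ n ∈ t, b n • (x n : X F)‖ = ‖∑ n ∈ t, b n • x n‖ := by
    intro t b
    rw [← UniformSpace.Completion.norm_coe (∑ n ∈ t, b n • x n), coe_smul_sum]
  have hsummable : ∀ a : C₀(ℕ, ℝ), Summable (fun n => a n • (x n : X F)) := by
    intro a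
    rw [summable_iff_vanishing_norm]
    intro ε hε
    have hρ : 0 < ε / (M + 1) := by positivity
    have hz : ∀ᶠ n in Filter.cofinite, |a n| < ε / (M + 1) := by
      have h0 := a.zero_at_infty'
      rw [Filter.cocompact_eq_cofinite] at h0
      have h1 : Filter.Tendsto (fun n => |a n|) Filter.cofinite (nhds 0) := by
        have := h0.abs
        simpa using this
      exact h1.eventually_lt_const hρ
    rw [Filter.eventually_cofinite] at hz
    refine ⟨hz.toFinset, fun t ht => ?_⟩
    rw [hcoe]
    have hb : ∀ n ∈ t, |a n| ≤ ε / (M + 1) := by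
      intro n hn
      by_contra hcon
      have : n ∈ hz.toFinset := by
        rw [Set.Finite.mem_toFinset]
        intro hlt
        exact hcon hlt.le
      exact Finset.disjoint_left.1 ht hn this
    refine (hup t a _ hρ.le hb).trans_lt ?_
    rw [div_mul_eq_mul_div, div_lt_iff₀ (by linarith)]
    nlinarith
  let T : C₀(ℕ, ℝ) →ₗ[ℝ] X F :=
    { toFun := fun a => ∑' n, a n • (x n : X F)
      map_add' := by
        intro a b
        rw [← (hsummable a).tsum_add (hsummable b)]
        refine tsum_congr (fun n => ?_)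
        simp [add_smul]
      map_smul' := by
        intro r a
        simp only [RingHom.id_apply]
        rw [← (hsummable a).tsum_const_smul r]
        refine tsum_congr (fun n => ?_)
        simp [smul_smul] }
  have hTlim : ∀ a : C₀(ℕ, ℝ), Filter.Tendsto (fun t : Finset ℕ => ‖∑ n ∈ t, a n • (x n : X F)‖)
      Filter.atTop (nhds ‖T a‖) := fun a => (hsummable a).hasSum.norm
  have hTup : ∀ a : C₀(ℕ, ℝ), ‖T a‖ ≤ M * ‖a‖ := by
    intro a
    refine le_of_tendsto (hTlim a) (Filter.Eventually.of_forall fun t => ?_)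
    rw [hcoe, mul_comm]
    exact hup t a _ (norm_nonneg _) (fun n _ => c0_apply_le a n)
  have hTlow : ∀ a : C₀(ℕ, ℝ), ‖a‖ ≤ ‖T a‖ := by
    intro a
    apply c0_norm_le a (norm_nonneg _)
    intro n
    refine ge_of_tendsto (hTlim a) ?_
    filter_upwards [Filter.eventually_ge_atTop ({n} : Finset ℕ)] with t ht
    rw [hcoe]
    exact hlow t a n (ht (Finset.mem_singleton_self n))
  let T' : C₀(ℕ, ℝ) →L[ℝ] X F := T.mkContinuous M hTup
  have hanti : AntilipschitzWith 1 T' := by
    apply ContinuousLinearMap.antilipschitz_of_bound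
    intro a
    simpa [T'] using hTlow a
  exact ⟨_, ⟨T'.equivRange hanti.injective
    (hanti.isClosed_range T'.uniformContinuous)⟩⟩

/-! ### The family on the binary tree -/

/-- The family consisting of the finite antichains and of the finite chains `C` with
`|C| ≤ |s| + 1` for all `s ∈ C` (where `|s|` is the length of the node `s`). -/
def treeFamily : Cover (List Bool) where
  sets := {A | IsAntichain (fun s t : List Bool => s <+: t) (A : Set (List Bool)) ∨
    (IsChain (fun s t : List Bool => s <+: t) (A : Set (List Bool)) ∧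
      ∀ s ∈ A, A.card ≤ s.length + 1)}
  covers := by
    intro k
    refine ⟨{k}, Or.inl ?_, Finset.mem_singleton_self k⟩
    rw [Finset.coe_singleton]
    exact Set.subsingleton_singleton.isAntichain _

theorem not_containsC0_of_mem (H : Set (List Bool)) (hH : H ∈ antichainIdeal) :
    ¬ ContainsC0 (X (treeFamily.restrict H)) := by
  classical
  obtain ⟨n, A, hA, rfl⟩ := hH
  set H : Set (List Bool) := ⋃ i, A i with hHdef
  refine not_containsC0 _ (1 / ((n : ℝ) + 1)) (by positivity) ?_
  intro x
  have hx0 : 0 ≤ ‖x‖ := norm_nonneg x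
  have h1 : l1 x ≤ n * ‖x‖ := by
    have hle : ∀ i : Fin n, ∑ k ∈ (supp x).filter (fun k : H => (k : List Bool) ∈ A i),
        |x.coord k| ≤ ‖x‖ := by
      intro i
      apply sum_le_norm
      refine ⟨((supp x).filter (fun k : H => (k : List Bool) ∈ A i)).image Subtype.val,
        Or.inl ?_, ?_⟩
      · refine (hA i).subset ?_
        intro s hs
        simp only [Finset.coe_image, Set.mem_image, Finset.mem_coe, Finset.mem_filter] at hs
        obtain ⟨k, ⟨_, hk⟩, rfl⟩ := hs
        exact hk
      · intro k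
        rw [Finset.mem_image]
        constructor
        · intro hk
          exact ⟨k, hk, rfl⟩
        · rintro ⟨j, hj, hjk⟩
          rwa [← Subtype.ext hjk]
    calc l1 x = ∑ k ∈ supp x, |x.coord k| := rfl
      _ ≤ ∑ k ∈ supp x, ∑ i : Fin n, (if (k : List Bool) ∈ A i then |x.coord k| else 0) := by
          refine Finset.sum_le_sum (fun k _ => ?_)
          obtain ⟨i, hi⟩ := Set.mem_iUnion.1 (k.2 : (k : List Bool) ∈ ⋃ i, A i)
          refine le_trans (le_of_eq ?_) (Finset.single_le_sum
            (f := fun i => if (k : List Bool) ∈ A i then |x.coord k| else 0) ?_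
            (Finset.mem_univ i))
          · simp [hi]
          · intro j _
            split_ifs
            · exact abs_nonneg _
            · exact le_rfl
      _ = ∑ i : Fin n, ∑ k ∈ (supp x).filter (fun k : H => (k : List Bool) ∈ A i),
            |x.coord k| := by
          rw [Finset.sum_comm]
          refine Finset.sum_congr rfl (fun i _ => ?_)
          rw [Finset.sum_filter]
      _ ≤ ∑ _i : Fin n, ‖x‖ := Finset.sum_le_sum (fun i _ => hle i)
      _ = n * ‖x‖ := by simp
  rw [one_div, inv_mul_le_iff₀ (by positivity)]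
  nlinarith

/-- the number of proper initial segments of `h` lying in `H` -/
noncomputable def rk (H : Set (List Bool)) (h : List Bool) : ℕ :=
  open Classical in ((Finset.range h.length).filter (fun i => h.take i ∈ H)).card

theorem rk_lt (H : Set (List Bool)) {g h : List Bool} (hg : g ∈ H) (hgh : g <+: h)
    (hne : g ≠ h) : rk H g < rk H h := by
  classical
  have hlen : g.length < h.length := by
    rcases lt_or_eq_of_le hgh.length_le with h1 | h1
    · exact h1
    · exact absurd (hgh.eq_of_length h1) hne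
  have htake : ∀ i ≤ g.length, g.take i = h.take i := by
    intro i hi
    obtain ⟨t, rfl⟩ := hgh
    rw [List.take_append_of_le_length hi]
  unfold rk
  apply Finset.card_lt_card
  rw [Finset.ssubset_iff_of_subset]
  · refine ⟨g.length, ?_, ?_⟩
    · rw [Finset.mem_filter, Finset.mem_range]
      refine ⟨hlen, ?_⟩
      rw [← htake _ le_rfl, List.take_length]
      exact hg
    · simp
  · intro i hi
    rw [Finset.mem_filter, Finset.mem_range] at hi ⊢
    refine ⟨hi.1.trans hlen, ?_⟩
    rw [← htake i hi.1.le]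
    exact hi.2

theorem exists_rk (H : Set (List Bool)) (hH : H ∉ antichainIdeal) (m : ℕ) :
    ∃ h ∈ H, m ≤ rk H h := by
  by_contra hcon
  push Not at hcon
  apply hH
  refine ⟨m, fun i => {h | h ∈ H ∧ rk H h = i}, ?_, ?_⟩
  · intro i g hg h hh hne hgh
    have := rk_lt H hg.1 hgh hne
    have h1 := hg.2
    have h2 := hh.2
    omega
  · ext h
    simp only [Set.mem_iUnion, Set.mem_ofPred_eq]
    constructor
    · intro hh
      exact ⟨⟨rk H h, hcon h hh⟩, hh, rfl⟩
    · rintro ⟨_, hh, _⟩
      exact hh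

theorem exists_chain (H : Set (List Bool)) (hH : H ∉ antichainIdeal) (N : ℕ) :
    ∃ D : Finset (List Bool), D.card = N ∧ (∀ s ∈ D, s ∈ H ∧ N ≤ s.length) ∧
      IsChain (fun s t : List Bool => s <+: t) (D : Set (List Bool)) := by
  classical
  obtain ⟨h, _, hr⟩ := exists_rk H hH (2 * N)
  set I := (Finset.range h.length).filter (fun i => h.take i ∈ H) with hI
  have hIcard : 2 * N ≤ I.card := hr
  have hcard : N ≤ (I.filter (fun i => N ≤ i)).card := by
    have h1 : (I.filter (fun i => N ≤ i)).card + (I.filter (fun i => ¬ N ≤ i)).card = I.card :=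
      Finset.card_filter_add_card_filter_not _
    have h2 : (I.filter (fun i => ¬ N ≤ i)).card ≤ N := by
      calc (I.filter (fun i => ¬ N ≤ i)).card ≤ (Finset.range N).card := by
            apply Finset.card_le_card
            intro i hi
            rw [Finset.mem_filter] at hi
            rw [Finset.mem_range]
            omega
        _ = N := Finset.card_range N
    omega
  obtain ⟨J, hJ, hJcard⟩ := Finset.exists_subset_card_eq hcard
  have hJmem : ∀ i ∈ J, i < h.length ∧ h.take i ∈ H ∧ N ≤ i := by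
    intro i hi
    have := hJ hi
    rw [Finset.mem_filter, hI, Finset.mem_filter, Finset.mem_range] at this
    exact ⟨this.1.1, this.1.2, this.2⟩
  have hlen : ∀ i ∈ J, (h.take i).length = i := by
    intro i hi
    rw [List.length_take]
    exact min_eq_left (hJmem i hi).1.le
  refine ⟨J.image (fun i => h.take i), ?_, ?_, ?_⟩
  · rw [Finset.card_image_of_injOn, hJcard]
    intro i hi j hj hij
    have := congrArg List.length hij
    dsimp only at this
    rwa [hlen i hi, hlen j hj] at this
  · intro s hs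
    rw [Finset.mem_image] at hs
    obtain ⟨i, hi, rfl⟩ := hs
    exact ⟨(hJmem i hi).2.1, by rw [hlen i hi]; exact (hJmem i hi).2.2⟩
  · intro s hs t ht _
    rw [Finset.mem_coe, Finset.mem_image] at hs ht
    obtain ⟨i, hi, rfl⟩ := hs
    obtain ⟨j, hj, rfl⟩ := ht
    rcases le_total i j with hij | hij
    · exact Or.inl (List.take_prefix_take_left hij)
    · exact Or.inr (List.take_prefix_take_left hij)

open Classical in
/-- the block `(1 / |D|) 1_D` -/
noncomputable def block (H : Set (List Bool)) (D : Finset (List Bool)) :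
    C00 (treeFamily.restrict H) :=
  Finsupp.onFinset (D.subtype (fun s => s ∈ H))
    (fun k => if (k : List Bool) ∈ D then (1 : ℝ) / D.card else 0) (by
      intro k hk
      rw [Finset.mem_subtype]
      by_contra hcon
      exact hk (if_neg hcon))

open Classical in
theorem block_coord (H : Set (List Bool)) (D : Finset (List Bool)) (k : H) :
    (block H D).coord k = if (k : List Bool) ∈ D then (1 : ℝ) / D.card else 0 := rfl

theorem containsC0_of_not_mem (H : Set (List Bool)) (hH : H ∉ antichainIdeal) :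
    ContainsC0 (X (treeFamily.restrict H)) := by
  classical
  choose D hDcard hDmem hDchain using exists_chain H hH
  -- the maximal length of a node of the chain `D N`
  let L : ℕ → ℕ := fun N => (D N).sup List.length
  have hL : ∀ N, ∀ s ∈ D N, s.length ≤ L N := fun N s hs => Finset.le_sup (f := List.length) hs
  obtain ⟨Q, hQ0, hQs⟩ : ∃ Q : ℕ → ℕ, Q 0 = 1 ∧
      ∀ n, Q (n + 1) = 2 ^ (n + 1) * (L (Q n) + 1) :=
    ⟨fun n => Nat.rec (motive := fun _ => ℕ) 1 (fun n q => 2 ^ (n + 1) * (L q + 1)) n,
      rfl, fun n => rfl⟩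
  have hQpow : ∀ n, 2 ^ n ≤ Q n := by
    intro n
    cases n with
    | zero => simp [hQ0]
    | succ n =>
      rw [hQs]
      exact Nat.le_mul_of_pos_right _ (Nat.succ_pos _)
  have hQpos : ∀ n, 0 < Q n := fun n => lt_of_lt_of_le (by positivity) (hQpow n)
  have hQL : ∀ n, Q n ≤ L (Q n) := by
    intro n
    have : (D (Q n)).Nonempty := by
      rw [← Finset.card_pos, hDcard]
      exact hQpos n
    obtain ⟨s, hs⟩ := this
    exact (hDmem _ s hs).2.trans (hL _ s hs)
  have hLlt : ∀ n, L (Q n) < Q (n + 1) := by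
    intro n
    rw [hQs]
    calc L (Q n) < L (Q n) + 1 := Nat.lt_succ_self _
      _ ≤ 2 ^ (n + 1) * (L (Q n) + 1) := Nat.le_mul_of_pos_left _ (by positivity)
  have hLmono : Monotone (fun n => L (Q n)) :=
    monotone_nat_of_le_succ (fun n => (hLlt n).le.trans (hQL (n + 1)))
  have hkey : ∀ m n, m < n → 2 ^ n * (L (Q m) + 1) ≤ Q n := by
    intro m n hmn
    obtain ⟨k, rfl⟩ : ∃ k, n = k + 1 := ⟨n - 1, by omega⟩
    rw [hQs]
    apply Nat.mul_le_mul_left
    have := hLmono (show m ≤ k by omega)
    dsimp only at this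
    omega
  have hdisj : ∀ m n, m < n → ∀ s, s ∈ D (Q m) → s ∈ D (Q n) → False := by
    intro m n hmn s hsm hsn
    have h1 := hL _ s hsm
    have h2 := (hDmem _ s hsn).2
    have h3 := hkey m n hmn
    have h4 : L (Q m) + 1 ≤ 2 ^ n * (L (Q m) + 1) :=
      Nat.le_mul_of_pos_left _ (by positivity)
    omega
  have hdisj' : ∀ m n, m ≠ n → ∀ s, s ∈ D (Q m) → s ∈ D (Q n) → False := by
    intro m n hmn s h1 h2
    rcases lt_or_gt_of_ne hmn with h | h
    · exact hdisj m n h s h1 h2
    · exact hdisj n m h s h2 h1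
  have hcoord : ∀ (n : ℕ) (k : H), (block H (D (Q n))).coord k
      = if (k : List Bool) ∈ D (Q n) then (1 : ℝ) / (Q n : ℝ) else 0 := by
    intro n k
    rw [block_coord, hDcard]
  apply containsC0 _ (fun n => block H (D (Q n))) 3
  · intro n k
    rw [hcoord]
    split_ifs <;> positivity
  · intro n m k hnm
    rw [hcoord, hcoord]
    by_cases h1 : (k : List Bool) ∈ D (Q n)
    · right
      rw [if_neg (fun h2 => hdisj' n m hnm _ h1 h2)]
    · left
      rw [if_neg h1]
  · intro n
    have hA : (D (Q n)).subtype (fun s => s ∈ H) ∈ (treeFamily.restrict H).sets := by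
      refine ⟨D (Q n), Or.inr ⟨hDchain _, ?_⟩, ?_⟩
      · intro s hs
        rw [hDcard]
        exact (hDmem _ s hs).2.trans (Nat.le_succ _)
      · intro k
        rw [Finset.mem_subtype]
    refine le_trans (le_of_eq ?_) (sum_le_norm _ hA)
    have h1 : ∀ k ∈ (D (Q n)).subtype (fun s => s ∈ H),
        |(block H (D (Q n))).coord k| = (1 : ℝ) / (Q n : ℝ) := by
      intro k hk
      rw [Finset.mem_subtype] at hk
      rw [hcoord, if_pos hk]
      exact abs_of_nonneg (by positivity)
    rw [Finset.sum_congr rfl h1, Finset.sum_const, Finset.card_subtype,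
      Finset.filter_true_of_mem (fun s hs => (hDmem _ s hs).1), hDcard, nsmul_eq_mul]
    have : (Q n : ℝ) ≠ 0 := by exact_mod_cast (hQpos n).ne'
    field_simp
  · intro t
    apply norm_le _ (by norm_num)
    rintro A ⟨A', hA', hAA'⟩
    -- the number of points of `A` in the chain `D (Q n)`
    let c : ℕ → ℕ := fun n => (A.filter (fun k : H => (k : List Bool) ∈ D (Q n))).card
    have hsum : ∑ k ∈ A, |(∑ n ∈ t, block H (D (Q n))).coord k| = ∑ n ∈ t, (c n : ℝ) / (Q n : ℝ) := by
      have h1 : ∀ k ∈ A, |(∑ n ∈ t, block H (D (Q n))).coord k|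
          = ∑ n ∈ t, (if (k : List Bool) ∈ D (Q n) then (1 : ℝ) / (Q n : ℝ) else 0) := by
        intro k _
        rw [coord_sum, abs_of_nonneg]
        · exact Finset.sum_congr rfl (fun n _ => hcoord n k)
        · refine Finset.sum_nonneg (fun n _ => ?_)
          rw [hcoord]
          split_ifs <;> positivity
      rw [Finset.sum_congr rfl h1, Finset.sum_comm]
      refine Finset.sum_congr rfl (fun n _ => ?_)
      rw [← Finset.sum_filter, Finset.sum_const, nsmul_eq_mul]
      simp only [c]
      ring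
    rw [hsum]
    have hgeo : ∑ n ∈ t, ((1 : ℝ) / 2) ^ n ≤ 2 := by
      have := (summable_geometric_two).sum_le_tsum t (fun n _ => by positivity)
      rwa [tsum_geometric_two] at this
    have hQr : ∀ n, (2 : ℝ) ^ n ≤ (Q n : ℝ) := fun n => by exact_mod_cast hQpow n
    have hcA : ∀ n, c n ≤ (A'.filter (fun s => s ∈ D (Q n))).card := by
      intro n
      apply Finset.card_le_card_of_injOn (fun k : H => (k : List Bool))
      · intro k hk
        rw [Finset.mem_coe, Finset.mem_filter] at hk ⊢
        exact ⟨(hAA' k).1 hk.1, hk.2⟩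
      · intro i _ j _ hij
        exact Subtype.ext hij
    rcases hA' with hanti | ⟨_, hsch⟩
    · -- antichains
      have hc1 : ∀ n, c n ≤ 1 := by
        intro n
        refine (hcA n).trans ?_
        rw [Finset.card_le_one]
        intro s hs u hu
        rw [Finset.mem_filter] at hs hu
        by_contra hne
        rcases hDchain (Q n) (Finset.mem_coe.2 hs.2) (Finset.mem_coe.2 hu.2) hne with h1 | h1
        · exact hanti (Finset.mem_coe.2 hs.1) (Finset.mem_coe.2 hu.1) hne h1
        · exact hanti (Finset.mem_coe.2 hu.1) (Finset.mem_coe.2 hs.1) (Ne.symm hne) h1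
      calc ∑ n ∈ t, (c n : ℝ) / (Q n : ℝ) ≤ ∑ n ∈ t, ((1 : ℝ) / 2) ^ n := by
            refine Finset.sum_le_sum (fun n _ => ?_)
            have h1 : (c n : ℝ) ≤ 1 := by exact_mod_cast hc1 n
            rw [one_div, inv_pow, ← one_div]
            exact div_le_div₀ zero_le_one h1 (by positivity) (hQr n)
        _ ≤ 3 := by linarith
    · -- chains
      by_cases hne : ∃ n ∈ t, (A'.filter (fun s => s ∈ D (Q n))).Nonempty
      · -- the least such `n`
        let n₀ := Nat.find hne
        have hn₀ : n₀ ∈ t ∧ (A'.filter (fun s => s ∈ D (Q n₀))).Nonempty := Nat.find_spec hne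
        have hmin : ∀ n ∈ t, n < n₀ → c n = 0 := by
          intro n hn hlt
          have h1 := Nat.find_min hne hlt
          have h2 : ¬ (A'.filter (fun s => s ∈ D (Q n))).Nonempty := fun h => h1 ⟨hn, h⟩
          rw [Finset.not_nonempty_iff_eq_empty] at h2
          have := hcA n
          rw [h2, Finset.card_empty] at this
          omega
        obtain ⟨s, hs⟩ := hn₀.2
        rw [Finset.mem_filter] at hs
        have hA'card : A'.card ≤ L (Q n₀) + 1 :=
          (hsch s hs.1).trans (Nat.succ_le_succ (hL _ s hs.2))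
        have hterm : ∀ n ∈ t, (c n : ℝ) / (Q n : ℝ) ≤ (if n = n₀ then 1 else 0) + (1 / 2) ^ n := by
          intro n hn
          have hp : (0 : ℝ) < (1 / 2) ^ n := by positivity
          have hQn : (0 : ℝ) < Q n := by exact_mod_cast hQpos n
          rcases lt_trichotomy n n₀ with h1 | h1 | h1
          · rw [hmin n hn h1, if_neg h1.ne]
            simp
          · rw [if_pos h1]
            have h2 : c n ≤ Q n := by
              refine (hcA n).trans ?_
              calc (A'.filter (fun s => s ∈ D (Q n))).card ≤ (D (Q n)).card := by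
                    apply Finset.card_le_card
                    intro u hu
                    exact (Finset.mem_filter.1 hu).2
                _ = Q n := hDcard _
            have h3 : (c n : ℝ) / (Q n : ℝ) ≤ 1 := by
              rw [div_le_one hQn]
              exact_mod_cast h2
            linarith
          · rw [if_neg h1.ne']
            have h2 : c n ≤ L (Q n₀) + 1 :=
              (hcA n).trans ((Finset.card_filter_le _ _).trans hA'card)
            have h3 : 2 ^ n * c n ≤ Q n :=
              (Nat.mul_le_mul_left _ h2).trans (hkey n₀ n h1)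
            have h4 : (2 : ℝ) ^ n * c n ≤ Q n := by exact_mod_cast h3
            rw [zero_add, div_le_iff₀ hQn, one_div, inv_pow, inv_mul_eq_div,
              le_div_iff₀ (by positivity)]
            linarith
        calc ∑ n ∈ t, (c n : ℝ) / (Q n : ℝ)
            ≤ ∑ n ∈ t, ((if n = n₀ then (1 : ℝ) else 0) + (1 / 2) ^ n) :=
              Finset.sum_le_sum hterm
          _ = ∑ n ∈ t, (if n = n₀ then (1 : ℝ) else 0) + ∑ n ∈ t, ((1 : ℝ) / 2) ^ n :=
              Finset.sum_add_distrib
          _ ≤ 1 + 2 := by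
              apply add_le_add _ hgeo
              rw [Finset.sum_ite_eq' t n₀]
              split_ifs <;> norm_num
          _ = 3 := by norm_num
      · push Not at hne
        have : ∀ n ∈ t, (c n : ℝ) / (Q n : ℝ) = 0 := by
          intro n hn
          have h1 := hne n hn
          have h2 := hcA n
          rw [h1, Finset.card_empty] at h2
          have h3 : c n = 0 := by omega
          rw [h3]
          simp
        rw [Finset.sum_congr rfl this]
        norm_num

theorem main : noC0 treeFamily = antichainIdeal := by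
  ext H
  constructor
  · intro h
    by_contra hcon
    exact h (containsC0_of_not_mem H hcon)
  · intro h
    exact not_containsC0_of_mem H h

end Pool.Agent.W_MP_de5a3f_an
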